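import Pool.Agent.H749R6.MG.Dens
import Pool.Agent.H749R6.MG.Win2
import Pool.Agent.H749R6.MG.Bl

/-! The next prime after `y`: a positive proportion of the points of `[Y, 4Y)`. -/

set_option autoImplicit false

namespace Pool.Agent.H480R2.PW

open MeasureTheory Filter Topology Set
open Pool.Agent.H749R6.MG

/-- no prime in `[y - C log y, y + a log y]`, and a prime in `(y + a log y, y + b log y)` -/
def Nx (a b C y : ℝ) : Prop :=
  (∀ p : ℕ, p.Prime → (p : ℝ) ≤ y + a * Real.log y → (p : ℝ) < y - C * Real.log y) ∧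
  ∃ p : ℕ, p.Prime ∧ y + a * Real.log y < p ∧ (p : ℝ) < y + b * Real.log y

theorem nx_meas (a b C : ℝ) : MeasurableSet {y : ℝ | Nx a b C y} := by
  have : {y : ℝ | Nx a b C y} = (⋂ p : ℕ, ⋂ _ : p.Prime,
      ({y : ℝ | y + a * Real.log y < p} ∪ {y : ℝ | (p : ℝ) < y - C * Real.log y})) ∩
      ⋃ p : ℕ, ⋃ _ : p.Prime,
        ({y : ℝ | y + a * Real.log y < p} ∩ {y : ℝ | (p : ℝ) < y + b * Real.log y}) := by
    ext y
    simp only [mem_inter_iff, mem_iInter, mem_iUnion, mem_union, mem_setOf_eq, exists_prop, Nx]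
    refine and_congr (forall_congr' fun p => forall_congr' fun _ => ?_) Iff.rfl
    constructor
    · intro h
      rcases lt_or_ge (y + a * Real.log y) (p : ℝ) with h1 | h1
      · exact Or.inl h1
      · exact Or.inr (h h1)
    · rintro (h | h) h1
      · exact absurd h (not_lt.2 h1)
      · exact h
  rw [this]
  have m1 : ∀ c : ℝ, Measurable fun y : ℝ => y + c * Real.log y := fun c =>
    measurable_id.add (Real.measurable_log.const_mul c)
  have m2 : Measurable fun y : ℝ => y - C * Real.log y :=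
    measurable_id.sub (Real.measurable_log.const_mul C)
  refine (MeasurableSet.iInter fun p => MeasurableSet.iInter fun _ => ?_).inter
    (MeasurableSet.iUnion fun p => MeasurableSet.iUnion fun _ => ?_)
  · exact (measurableSet_lt (m1 a) measurable_const).union (measurableSet_lt measurable_const m2)
  · exact (measurableSet_lt (m1 a) measurable_const).inter (measurableSet_lt measurable_const (m1 b))

theorem nth_le_of_lt (k N : ℕ) (h : k < Nat.primeCounting N) : Nat.nth Nat.Prime k ≤ N := by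
  rw [Nat.primeCounting, Nat.primeCounting'] at h
  have := Nat.nth_lt_of_lt_count h
  omega

theorem P_le_of_lt (Y : ℝ) (hY : 0 ≤ Y) (k : ℕ) (h : k < Nat.primeCounting ⌊4 * Y⌋₊) :
    P k ≤ 4 * Y := by
  have h1 := nth_le_of_lt k _ h
  have h2 : P k ≤ (⌊4 * Y⌋₊ : ℝ) := by exact_mod_cast h1
  exact h2.trans (Nat.floor_le (by linarith))

/-- the indices of the primes between `Y` and `4Y` -/
noncomputable def Ix (Y : ℝ) : Finset ℕ := by
  classical
  exact (Finset.range (Nat.primeCounting ⌊4 * Y⌋₊)).filter (fun k => Y ≤ P k)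

theorem ix_card : ∀ᶠ Y : ℝ in atTop, Y / (4 * Real.log Y) ≤ ((Ix Y).card : ℝ) := by
  classical
  obtain ⟨Z, hZ⟩ := theta_close (1 / 8) (by norm_num)
  filter_upwards [eventually_ge_atTop Z, eventually_ge_atTop (4 : ℝ)] with Y h1 h2
  have hY0 : 0 < Y := by linarith
  have hl : 0 < Real.log Y := Real.log_pos (by linarith)
  set a : ℕ := ⌈Y⌉₊ with ha
  set x : ℕ := ⌊2 * Y⌋₊ with hx
  have ha1 : Y ≤ a := Nat.le_ceil Y
  have ha2 : (a : ℝ) < Y + 1 := Nat.ceil_lt_add_one hY0.le
  have hx1 : (x : ℝ) ≤ 2 * Y := Nat.floor_le (by linarith)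
  have hx2 : 2 * Y < x + 1 := Nat.lt_floor_add_one _
  have hax : ((a + x : ℕ) : ℝ) = a + x := by push_cast; ring
  have h3 := prime_count a x (1 / 8) (by norm_num) (hZ a (h1.trans ha1))
    (hZ _ (by rw [hax]; linarith [Nat.cast_nonneg (α := ℝ) x]))
    (by rw [hax]; linarith) (by
      have : (2 : ℝ) ≤ ((a + x : ℕ) : ℝ) := by rw [hax]; linarith
      exact_mod_cast this)
  have h4 : ((Finset.Ioc a (a + x)).filter Nat.Prime).card ≤ (Ix Y).card := by
    apply Finset.card_le_card_of_injOn (fun p => Nat.count Nat.Prime p)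
    · intro p hp
      have hp' := Finset.mem_filter.1 hp
      rw [Finset.mem_Ioc] at hp'
      have hnth : Nat.nth Nat.Prime (Nat.count Nat.Prime p) = p := Nat.nth_count hp'.2
      have hPp : P (Nat.count Nat.Prime p) = p := by rw [P, hnth]
      have hpa : (a : ℝ) < p := by exact_mod_cast hp'.1.1
      have hpx : (p : ℝ) ≤ a + x := by
        rw [← hax]
        exact_mod_cast hp'.1.2
      unfold Ix
      rw [Finset.coe_filter, mem_setOf_eq, Finset.mem_range]
      refine ⟨idx_lt 4 Y _ ?_, ?_⟩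
      · rw [hPp]
        linarith
      · show Y ≤ P (Nat.count Nat.Prime p)
        rw [hPp]
        linarith
    · intro p hp q hq hpq
      have hp' := (Finset.mem_filter.1 hp).2
      have hq' := (Finset.mem_filter.1 hq).2
      have : Nat.count Nat.Prime p = Nat.count Nat.Prime q := hpq
      rw [← Nat.nth_count hp', ← Nat.nth_count hq', this]
  have h5 : Real.log ((a + x : ℕ) : ℝ) ≤ 2 * Real.log Y := by
    have h6 : ((a + x : ℕ) : ℝ) ≤ Y ^ 2 := by
      rw [hax]
      nlinarith
    calc Real.log ((a + x : ℕ) : ℝ) ≤ Real.log (Y ^ 2) :=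
          Real.log_le_log (by rw [hax]; linarith [Nat.cast_nonneg (α := ℝ) x]) h6
      _ = 2 * Real.log Y := by
          rw [Real.log_pow]
          norm_num
  have h6 : (((Finset.Ioc a (a + x)).filter Nat.Prime).card : ℝ) ≤ ((Ix Y).card : ℝ) := by
    exact_mod_cast h4
  rw [div_le_iff₀ (by positivity)]
  have h7 : (((Finset.Ioc a (a + x)).filter Nat.Prime).card : ℝ) * Real.log ((a + x : ℕ) : ℝ) ≤
      ((Ix Y).card : ℝ) * (2 * Real.log Y) := by
    apply mul_le_mul h6 h5 _ (Nat.cast_nonneg _)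
    apply Real.log_nonneg
    rw [hax]
    linarith [Nat.cast_nonneg (α := ℝ) x]
  linarith

/-- the indices of the large gaps between `Y` and `4Y` -/
noncomputable def Lg (C₀ Y : ℝ) : Finset ℕ := by
  classical
  exact (Finset.range (Nat.primeCounting ⌊4 * Y⌋₊)).filter
    (fun j => Y ≤ P j ∧ P (j + 1) ≤ 4 * Y ∧ C₀ * Real.log (P j) < P (j + 1) - P j)

theorem lg_card (C₀ : ℝ) : ∃ K : ℕ, 0 < K ∧ ∀ᶠ Y : ℝ in atTop,
    Y / (8 * K * Real.log Y) ≤ ((Lg C₀ Y).card : ℝ) := by
  classical
  obtain ⟨K, x₀, hK⟩ := blocks C₀ (1 / 512) (by norm_num)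
  have hcore : ∀ᶠ Y : ℝ in atTop, Y / (8 * Real.log Y) ≤ K * ((Lg C₀ Y).card : ℝ) := by
    have e1 : ∀ᶠ Y : ℝ in atTop, ‖Real.log Y‖ ≤ (1 / (16 * ((K : ℝ) + 1))) * ‖Y‖ :=
      Real.isLittleO_log_id_atTop.def (by positivity)
    filter_upwards [ix_card, count_bound 4 (by norm_num), e1,
      (count_tendsto 4 (by norm_num)).eventually_ge_atTop x₀, eventually_gt_atTop (1 : ℝ)] with
      Y h1 h2 h3 h4 h5
    have hY0 : 0 < Y := by linarith
    have hl : 0 < Real.log Y := Real.log_pos h5
    set X : ℕ := Nat.primeCounting ⌊4 * Y⌋₊ with hX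
    set B : Finset ℕ := (Finset.range X).filter (fun k : ℕ => ∀ i < K,
      P (k + i + 1) - P (k + i) ≤ C₀ * Real.log (P (k + i))) with hB
    have hBcard : (B.card : ℝ) ≤ 1 / 512 * X := hK X h4
    set A : Finset ℕ := ((Ix Y).filter (fun k => k + K < X)) \ B with hA
    have hsub : Ix Y ⊆ (A ∪ B) ∪ Finset.Ico (X - K) X := by
      intro k hk
      have hk' : k < X := by
        unfold Ix at hk
        exact Finset.mem_range.1 (Finset.mem_filter.1 hk).1
      by_cases h6 : k + K < X
      · apply Finset.mem_union_left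
        by_cases h7 : k ∈ B
        · exact Finset.mem_union_right _ h7
        · exact Finset.mem_union_left _ (Finset.mem_sdiff.2 ⟨Finset.mem_filter.2 ⟨hk, h6⟩, h7⟩)
      · apply Finset.mem_union_right
        rw [Finset.mem_Ico]
        omega
    have hcard : (Ix Y).card ≤ A.card + B.card + K := by
      refine (Finset.card_le_card hsub).trans ((Finset.card_union_le _ _).trans ?_)
      refine add_le_add (Finset.card_union_le _ _) ?_
      rw [Nat.card_Ico]
      omega
    have hcard' : ((Ix Y).card : ℝ) ≤ A.card + B.card + K := by exact_mod_cast hcard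
    have hAL : A ⊆ (Finset.range K ×ˢ Lg C₀ Y).image (fun q : ℕ × ℕ => q.2 - q.1) := by
      intro k hk
      rw [hA, Finset.mem_sdiff, Finset.mem_filter] at hk
      obtain ⟨⟨hk1, hk2⟩, hk3⟩ := hk
      have hk1' := hk1
      unfold Ix at hk1'
      obtain ⟨hk4, hk5⟩ := Finset.mem_filter.1 hk1'
      have hex : ∃ i < K, C₀ * Real.log (P (k + i)) < P (k + i + 1) - P (k + i) := by
        by_contra hcon
        push Not at hcon
        exact hk3 (Finset.mem_filter.2 ⟨hk4, hcon⟩)
      obtain ⟨i, hi, hig⟩ := hex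
      rw [Finset.mem_image]
      refine ⟨(i, k + i), Finset.mem_product.2 ⟨Finset.mem_range.2 hi, ?_⟩, by simp⟩
      show k + i ∈ Lg C₀ Y
      unfold Lg
      rw [Finset.mem_filter, Finset.mem_range]
      refine ⟨by omega, hk5.trans (P_mono (by omega)), ?_, hig⟩
      exact P_le_of_lt Y hY0.le _ (by omega)
    have hAc : A.card ≤ K * (Lg C₀ Y).card := by
      refine (Finset.card_le_card hAL).trans (Finset.card_image_le.trans (le_of_eq ?_))
      rw [Finset.card_product, Finset.card_range]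
    have hAc' : (A.card : ℝ) ≤ K * (Lg C₀ Y).card := by exact_mod_cast hAc
    have h6 : (B.card : ℝ) ≤ Y / (16 * Real.log Y) := by
      have : (1 / 512 : ℝ) * X ≤ 1 / 512 * (8 * 4 * (Y / Real.log Y)) := by gcongr
      refine hBcard.trans (this.trans (le_of_eq ?_))
      field_simp
      norm_num
    have h7 : (K : ℝ) ≤ Y / (16 * Real.log Y) := by
      rw [Real.norm_eq_abs, Real.norm_eq_abs, abs_of_pos hl, abs_of_pos hY0] at h3
      rw [le_div_iff₀ (by positivity)]
      have h8 : (K : ℝ) * (16 * Real.log Y) ≤ (16 * ((K : ℝ) + 1)) * Real.log Y := by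
        nlinarith
      refine h8.trans ?_
      have h9 : (16 * ((K : ℝ) + 1)) * Real.log Y ≤
          (16 * ((K : ℝ) + 1)) * (1 / (16 * ((K : ℝ) + 1)) * Y) :=
        mul_le_mul_of_nonneg_left h3 (by positivity)
      refine h9.trans (le_of_eq ?_)
      field_simp
    have h8 : Y / (4 * Real.log Y) = Y / (8 * Real.log Y) + Y / (16 * Real.log Y) +
        Y / (16 * Real.log Y) := by
      field_simp
      norm_num
    rw [h8] at h1
    linarith
  rcases Nat.eq_zero_or_pos K with h0 | h0
  · exfalso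
    obtain ⟨Y, hY1, hY2⟩ := (hcore.and (eventually_gt_atTop (1 : ℝ))).exists
    rw [h0] at hY1
    have hl : 0 < Real.log Y := Real.log_pos hY2
    have : 0 < Y / (8 * Real.log Y) := by positivity
    push_cast at hY1
    linarith
  · refine ⟨K, h0, ?_⟩
    filter_upwards [hcore, eventually_gt_atTop (1 : ℝ)] with Y h1 h2
    have hl : 0 < Real.log Y := Real.log_pos h2
    have hK0 : (0 : ℝ) < K := by exact_mod_cast h0
    rw [div_le_iff₀ (by positivity)] at h1 ⊢
    nlinarith

/-- **the dyadic estimate** -/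
theorem nx_dyadic (a b C : ℝ) (ha : 0 ≤ a) (hab : a < b) (hC : 0 ≤ C) :
    ∃ c₀ : ℝ, 0 < c₀ ∧ c₀ ≤ 1 ∧ ∃ Y₀ : ℝ, ∀ Y : ℝ, Y₀ ≤ Y →
      ENNReal.ofReal (c₀ * Y) ≤ volume (Ico Y (4 * Y) ∩ {y | Nx a b C y}) := by
  classical
  obtain ⟨K, hK, hev⟩ := lg_card (b + 2 * C + 1)
  have hK0 : (0 : ℝ) < K := by exact_mod_cast hK
  have hb : 0 < b := by linarith
  set c₀ : ℝ := min ((b - a) / (16 * K)) 1 with hc₀
  have hba : 0 < b - a := by linarith
  refine ⟨c₀, by positivity, min_le_right _ _, ?_⟩
  have e2 : ∀ᶠ Y : ℝ in atTop, a * Real.log 4 ≤ (b - a) / 2 * Real.log Y :=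
    (Real.tendsto_log_atTop.const_mul_atTop (by positivity)).eventually_ge_atTop _
  have hall : ∀ᶠ Y : ℝ in atTop,
      ENNReal.ofReal (c₀ * Y) ≤ volume (Ico Y (4 * Y) ∩ {y | Nx a b C y}) := by
    filter_upwards [hev, e2, eventually_ge_atTop (4 : ℝ)] with Y h1 h2 h3
    have hY0 : 0 < Y := by linarith
    set l : ℝ := Real.log Y with hl'
    have hl : 0 < l := Real.log_pos (by linarith)
    set J : ℕ → Set ℝ := fun j => Ioo (P (j + 1) - b * l) (P (j + 1) - (a + b) / 2 * l) with hJ
    have hprop : ∀ j ∈ Lg (b + 2 * C + 1) Y, ∀ y ∈ J j,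
        (P j < y ∧ y < P (j + 1)) ∧ y ∈ Ico Y (4 * Y) ∩ {y | Nx a b C y} := by
      intro j hj y hy
      unfold Lg at hj
      rw [Finset.mem_filter] at hj
      obtain ⟨_, hj1, hj2, hj3⟩ := hj
      obtain ⟨hy1, hy2⟩ := hy
      have hlP : l ≤ Real.log (P j) := Real.log_le_log hY0 hj1
      have hg : (b + 2 * C + 1) * l ≤ (b + 2 * C + 1) * Real.log (P j) :=
        mul_le_mul_of_nonneg_left hlP (by linarith)
      have hCl : 0 ≤ C * l := by positivity
      have hyP : P j + (2 * C + 1) * l < y := by linarith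
      have hyP' : P j < y := by nlinarith
      have hal : 0 < (a + b) / 2 * l := by
        have : 0 < (a + b) / 2 := by linarith
        positivity
      have hyP2 : y < P (j + 1) := by linarith
      have hyY : Y ≤ y := by linarith
      have hy0 : 0 < y := by linarith
      have hly : l ≤ Real.log y := Real.log_le_log hY0 hyY
      have hly2 : Real.log y ≤ Real.log 4 + l := by
        rw [hl', ← Real.log_mul (by norm_num) hY0.ne']
        exact Real.log_le_log hy0 (by linarith)
      have hl4 : Real.log 4 ≤ l := Real.log_le_log (by norm_num) h3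
      have hay : a * Real.log y ≤ (a + b) / 2 * l := by
        have : a * Real.log y ≤ a * (Real.log 4 + l) := mul_le_mul_of_nonneg_left hly2 ha
        nlinarith
      have hCy : C * Real.log y ≤ 2 * C * l := by
        have : C * Real.log y ≤ C * (Real.log 4 + l) := mul_le_mul_of_nonneg_left hly2 hC
        nlinarith
      have hby : b * l ≤ b * Real.log y := mul_le_mul_of_nonneg_left hly hb.le
      refine ⟨⟨hyP', hyP2⟩, ⟨hyY, by linarith⟩, ?_, ?_⟩
      · intro p hp hpy
        rcases split j p hp with h | h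
        · nlinarith
        · linarith
      · exact ⟨Nat.nth Nat.Prime (j + 1), prime_nth (j + 1),
          (show y + a * Real.log y < P (j + 1) by linarith),
          (show P (j + 1) < y + b * Real.log y by linarith)⟩
    have hdis : Set.PairwiseDisjoint (↑(Lg (b + 2 * C + 1) Y) : Set ℕ) J := by
      intro i hi j hj hij
      rw [Function.onFun, Set.disjoint_left]
      intro y hyi hyj
      have h4 := (hprop i (Finset.mem_coe.1 hi) y hyi).1
      have h5 := (hprop j (Finset.mem_coe.1 hj) y hyj).1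
      rcases Nat.lt_or_gt_of_ne hij with h | h
      · have := P_mono (Nat.succ_le_of_lt h)
        linarith [h4.2, h5.1]
      · have := P_mono (Nat.succ_le_of_lt h)
        linarith [h4.1, h5.2]
    have hun : (⋃ j ∈ Lg (b + 2 * C + 1) Y, J j) ⊆ Ico Y (4 * Y) ∩ {y | Nx a b C y} := by
      intro y hy
      rw [mem_iUnion₂] at hy
      obtain ⟨j, hj, hyj⟩ := hy
      exact (hprop j hj y hyj).2
    refine le_trans ?_ (measure_mono hun)
    rw [measure_biUnion_finset hdis (fun j _ => measurableSet_Ioo)]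
    have hvol : ∀ j ∈ Lg (b + 2 * C + 1) Y, volume (J j) = ENNReal.ofReal ((b - a) / 2 * l) := by
      intro j _
      rw [hJ, Real.volume_Ioo]
      congr 1
      ring
    rw [Finset.sum_congr rfl hvol, Finset.sum_const, nsmul_eq_mul,
      ← ENNReal.ofReal_natCast, ← ENNReal.ofReal_mul (Nat.cast_nonneg _)]
    apply ENNReal.ofReal_le_ofReal
    have h4 : Y / (8 * K * l) * ((b - a) / 2 * l) ≤
        ((Lg (b + 2 * C + 1) Y).card : ℝ) * ((b - a) / 2 * l) :=
      mul_le_mul_of_nonneg_right h1 (by positivity)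
    refine le_trans ?_ h4
    have h5 : Y / (8 * K * l) * ((b - a) / 2 * l) = (b - a) / (16 * K) * Y := by
      field_simp
      norm_num
    rw [h5]
    exact mul_le_mul_of_nonneg_right (min_le_left _ _) hY0.le
  obtain ⟨Y₀, hY₀⟩ := eventually_atTop.1 hall
  exact ⟨Y₀, hY₀⟩

end Pool.Agent.H480R2.PW
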