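import Pool.Agent.H480R2.PW.Trans
import Pool.Agent.H480R2.PW.Gap

/-! The next prime after `t n * x ^ (e n)` for almost every `x > 1`. -/

set_option autoImplicit false

namespace Pool.Agent.H480R2.PW

open MeasureTheory Filter Topology Set
open Pool.Agent.H749R6.MG

theorem ae_thm (G : Set ℝ) (hG : MeasurableSet G) (c₀ Y₀ : ℝ) (hc₀ : 0 < c₀) (hc1 : c₀ ≤ 1)
    (h : ∀ Y : ℝ, Y₀ ≤ Y → ENNReal.ofReal (c₀ * Y) ≤ volume (Ico Y (4 * Y) ∩ G))
    (t e : ℕ → ℝ) (ht : ∀ n, 1 ≤ t n) (he : Tendsto e atTop atTop) :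
    ∀ᵐ x : ℝ, 1 < x → ∃ᶠ N : ℕ in atTop,
      c₀ / 96 * N ≤ ({n : ℕ | n < N ∧ t n * x ^ (e n) ∈ G}.ncard : ℝ) := by
  classical
  set E : ℕ → Set ℝ := fun n => Iic 1 ∪ {x | t n * x ^ (e n) ∈ G} with hE
  have hm : ∀ n, MeasurableSet {x : ℝ | t n * x ^ (e n) ∈ G} := by
    intro n
    have : Measurable fun x : ℝ => t n * x ^ (e n) := by fun_prop
    exact this hG
  have hEm : ∀ n, MeasurableSet (E n) := fun n => measurableSet_Iic.union (hm n)
  have hW : ∀ w δ : ℝ, 0 < w → 0 < δ → ∀ᶠ n in atTop,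
      ENNReal.ofReal (c₀ / 48 * (δ * w)) ≤ volume (Icc w ((1 + δ) * w) ∩ E n) := by
    intro w δ hw hδ
    obtain ⟨v, hv⟩ : ∃ v, v = (1 + δ) * w := ⟨_, rfl⟩
    have hwv : w < v := by rw [hv]; nlinarith
    have hδw : δ * w = v - w := by rw [hv]; ring
    rw [← hv, hδw]
    rcases le_or_gt v 1 with hv1 | hv1
    · refine Eventually.of_forall fun n => ?_
      have : Icc w v ⊆ Icc w v ∩ E n := fun x hx => ⟨hx, Or.inl (hx.2.trans hv1)⟩
      refine le_trans ?_ (measure_mono this)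
      rw [Real.volume_Icc]
      apply ENNReal.ofReal_le_ofReal
      nlinarith
    · set m : ℝ := max w 1 with hmdef
      have hmv : m < v := max_lt hwv hv1
      have hm1 : 1 ≤ m := le_max_right _ _
      have hwm : w ≤ m := le_max_left _ _
      filter_upwards [interval G hG c₀ Y₀ hc₀ h t e ht he ((m + v) / 2) v (by linarith)
        (by linarith)] with n hn
      have hsub : Ico w m ∪ (Icc ((m + v) / 2) v ∩ {x | t n * x ^ (e n) ∈ G}) ⊆
          Icc w v ∩ E n := by
        rintro x (hx | hx)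
        · refine ⟨⟨hx.1, by linarith [hx.2]⟩, Or.inl ?_⟩
          rcases le_or_gt w 1 with h1 | h1
          · have : m = 1 := max_eq_right h1
            rw [this] at hx
            exact hx.2.le
          · have : m = w := max_eq_left h1.le
            rw [this] at hx
            exact absurd hx.2 (not_lt.2 hx.1)
        · exact ⟨⟨by linarith [hx.1.1], hx.1.2⟩, Or.inr hx.2⟩
      have hdis : Disjoint (Ico w m) (Icc ((m + v) / 2) v ∩ {x | t n * x ^ (e n) ∈ G}) := by
        rw [Set.disjoint_left]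
        intro x hx hx'
        linarith [hx.2, hx'.1.1]
      refine le_trans ?_ (measure_mono hsub)
      rw [measure_union hdis (measurableSet_Icc.inter (hm n)), Real.volume_Ico]
      have h1 : c₀ / 48 * (v - w) ≤ (m - w) + c₀ / 24 * (v - (m + v) / 2) := by nlinarith
      refine (ENNReal.ofReal_le_ofReal h1).trans ?_
      rw [ENNReal.ofReal_add (by linarith) (by
        apply mul_nonneg (by positivity); linarith)]
      exact add_le_add le_rfl hn
  filter_upwards [upper_density_const E hEm (c₀ / 48) (by positivity) hW] with x hx hx1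
  refine ((hx (by linarith)).and_eventually (eventually_gt_atTop 0)).mono ?_
  rintro N ⟨h1, h2⟩
  have hN : (0 : ℝ) < N := by exact_mod_cast h2
  unfold av at h1
  rw [le_div_iff₀ hN] at h1
  have h0 : c₀ / 96 * N = c₀ / 48 / 2 * N := by ring
  rw [h0]
  refine h1.trans (le_of_eq ?_)
  have h3 : {n : ℕ | n < N ∧ t n * x ^ (e n) ∈ G} =
      (((Finset.range N).filter (fun n => t n * x ^ (e n) ∈ G) : Finset ℕ) : Set ℕ) := by
    ext n
    rw [Finset.mem_coe, Finset.mem_filter, Finset.mem_range]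
    rfl
  rw [h3, Set.ncard_coe_finset, Finset.card_filter]
  push_cast
  refine Finset.sum_congr rfl fun n _ => ?_
  by_cases hf : t n * x ^ (e n) ∈ G
  · rw [if_pos hf]
    exact indicator_of_mem (s := E n) (Or.inr hf) _
  · rw [if_neg hf]
    refine indicator_of_notMem (s := E n) ?_ _
    rintro (h4 | h4)
    · exact absurd hx1 (not_lt.2 h4)
    · exact hf h4

/-- **main theorem** -/
theorem main (a b C : ℝ) (ha : 0 ≤ a) (hab : a < b) (hC : 0 ≤ C) : ∃ c : ℝ, 0 < c ∧
    ∀ t e : ℕ → ℝ, (∀ n, 1 ≤ t n) → Tendsto e atTop atTop → ∀ᵐ x : ℝ, 1 < x →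
      ∃ᶠ N : ℕ in atTop, c * N ≤ ({n : ℕ | n < N ∧ Nx a b C (t n * x ^ (e n))}.ncard : ℝ) := by
  obtain ⟨c₀, hc₀, hc1, Y₀, hY₀⟩ := nx_dyadic a b C ha hab hC
  exact ⟨c₀ / 96, by positivity, fun t e ht he =>
    ae_thm _ (nx_meas a b C) c₀ Y₀ hc₀ hc1 hY₀ t e ht he⟩

end Pool.Agent.H480R2.PW
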