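import Pool.Agent.H480R2.PW.Main

/-! The next prime after `t n * x ^ (e n)` for almost every `x > 1`: all windows at once. -/

set_option autoImplicit false

namespace Pool.Agent.H480R2.PW

open MeasureTheory Filter Topology Set
open Pool.Agent.H749R6.MG

theorem nx_mono (a b C a' b' C' y : ℝ) (hy : 1 ≤ y) (ha : a ≤ a') (hb : b' ≤ b) (hC : C ≤ C')
    (h : Nx a' b' C' y) : Nx a b C y := by
  have hl : 0 ≤ Real.log y := Real.log_nonneg hy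
  have h1 : a * Real.log y ≤ a' * Real.log y := mul_le_mul_of_nonneg_right ha hl
  have h2 : b' * Real.log y ≤ b * Real.log y := mul_le_mul_of_nonneg_right hb hl
  have h3 : C * Real.log y ≤ C' * Real.log y := mul_le_mul_of_nonneg_right hC hl
  obtain ⟨hA, p, hp, hp1, hp2⟩ := h
  refine ⟨fun q hq hq1 => ?_, p, hp, by linarith, by linarith⟩
  have := hA q hq (by linarith)
  linarith

theorem main2 : ∃ c : ℝ → ℝ → ℝ → ℝ, (∀ a b C : ℝ, 0 ≤ a → a < b → 0 ≤ C → 0 < c a b C) ∧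
    ∀ t e : ℕ → ℝ, (∀ n, 1 ≤ t n) → Tendsto e atTop atTop → ∀ᵐ x : ℝ, 1 < x →
      ∀ a b C : ℝ, 0 ≤ a → a < b → 0 ≤ C → ∃ᶠ N : ℕ in atTop,
        c a b C * N ≤ ({n : ℕ | n < N ∧ Nx a b C (t n * x ^ (e n))}.ncard : ℝ) := by
  classical
  have hq : ∀ q : ℚ × ℚ × ℚ, ∃ c : ℝ, 0 < c ∧ ((0 ≤ (q.1 : ℝ) ∧ (q.1 : ℝ) < q.2.1 ∧
      0 ≤ (q.2.2 : ℝ)) → ∀ t e : ℕ → ℝ, (∀ n, 1 ≤ t n) → Tendsto e atTop atTop →
      ∀ᵐ x : ℝ, 1 < x → ∃ᶠ N : ℕ in atTop,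
        c * N ≤ ({n : ℕ | n < N ∧ Nx q.1 q.2.1 q.2.2 (t n * x ^ (e n))}.ncard : ℝ)) := by
    intro q
    by_cases h : 0 ≤ (q.1 : ℝ) ∧ (q.1 : ℝ) < q.2.1 ∧ 0 ≤ (q.2.2 : ℝ)
    · obtain ⟨c, hc, hc2⟩ := main q.1 q.2.1 q.2.2 h.1 h.2.1 h.2.2
      exact ⟨c, hc, fun _ => hc2⟩
    · exact ⟨1, one_pos, fun h' => absurd h' h⟩
  choose c₀ hc₀ hc1 using hq
  have hex : ∀ a b C : ℝ, ∃ q : ℚ × ℚ × ℚ, 0 ≤ a → a < b → 0 ≤ C →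
      (0 ≤ (q.1 : ℝ) ∧ (q.1 : ℝ) < q.2.1 ∧ 0 ≤ (q.2.2 : ℝ)) ∧ a ≤ q.1 ∧ (q.2.1 : ℝ) ≤ b ∧
        C ≤ q.2.2 := by
    intro a b C
    by_cases h : 0 ≤ a ∧ a < b ∧ 0 ≤ C
    · obtain ⟨q1, h1, h2⟩ := exists_rat_btwn h.2.1
      obtain ⟨q2, h3, h4⟩ := exists_rat_btwn h2
      obtain ⟨q3, h5⟩ := exists_rat_gt C
      refine ⟨(q1, q2, q3), fun _ _ _ => ⟨⟨?_, h3, ?_⟩, h1.le, h4.le, h5.le⟩⟩
      · exact h.1.trans h1.le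
      · exact h.2.2.trans h5.le
    · exact ⟨(0, 0, 0), fun h1 h2 h3 => absurd ⟨h1, h2, h3⟩ h⟩
  choose Q hQ using hex
  refine ⟨fun a b C => c₀ (Q a b C) / 2, fun a b C _ _ _ => half_pos (hc₀ _), ?_⟩
  intro t e ht he
  have hall : ∀ᵐ x : ℝ, ∀ q : ℚ × ℚ × ℚ, 1 < x → (0 ≤ (q.1 : ℝ) ∧ (q.1 : ℝ) < q.2.1 ∧
      0 ≤ (q.2.2 : ℝ)) → ∃ᶠ N : ℕ in atTop,
        c₀ q * N ≤ ({n : ℕ | n < N ∧ Nx q.1 q.2.1 q.2.2 (t n * x ^ (e n))}.ncard : ℝ) := by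
    rw [ae_all_iff]
    intro q
    by_cases h : 0 ≤ (q.1 : ℝ) ∧ (q.1 : ℝ) < q.2.1 ∧ 0 ≤ (q.2.2 : ℝ)
    · filter_upwards [hc1 q h t e ht he] with x hx hx1 _
      exact hx hx1
    · exact Eventually.of_forall fun x _ h' => absurd h' h
  obtain ⟨n₀, hn₀⟩ := eventually_atTop.1 (he.eventually_ge_atTop 0)
  filter_upwards [hall] with x hx hx1 a b C ha hab hC
  obtain ⟨hq1, hq2, hq3, hq4⟩ := hQ a b C ha hab hC
  set q := Q a b C with hqdef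
  have hc : 0 < c₀ q := hc₀ q
  have hlarge : ∀ᶠ N : ℕ in atTop, (n₀ : ℝ) ≤ c₀ q / 2 * N :=
    (tendsto_natCast_atTop_atTop.const_mul_atTop (half_pos hc)).eventually_ge_atTop _
  refine ((hx q hx1 hq1).and_eventually hlarge).mono ?_
  rintro N ⟨h1, h2⟩
  have hsub : {n : ℕ | n < N ∧ Nx q.1 q.2.1 q.2.2 (t n * x ^ (e n))} ⊆
      (↑(Finset.range n₀) : Set ℕ) ∪ {n : ℕ | n < N ∧ Nx a b C (t n * x ^ (e n))} := by
    rintro n ⟨hn, hnx⟩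
    rcases Nat.lt_or_ge n n₀ with h | h
    · exact Or.inl (Finset.mem_coe.2 (Finset.mem_range.2 h))
    · refine Or.inr ⟨hn, nx_mono a b C _ _ _ _ ?_ hq2 hq3 hq4 hnx⟩
      have h3 : 1 ≤ x ^ (e n) := Real.one_le_rpow hx1.le (hn₀ n h)
      have h4 := ht n
      nlinarith
  have hfin : {n : ℕ | n < N ∧ Nx a b C (t n * x ^ (e n))}.Finite :=
    (Set.finite_lt_nat N).subset fun n hn => hn.1
  have h3 : ({n : ℕ | n < N ∧ Nx q.1 q.2.1 q.2.2 (t n * x ^ (e n))}.ncard : ℝ) ≤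
      n₀ + ({n : ℕ | n < N ∧ Nx a b C (t n * x ^ (e n))}.ncard : ℝ) := by
    have h4 := (Set.ncard_le_ncard hsub ((Finset.finite_toSet _).union hfin)).trans
      (Set.ncard_union_le _ _)
    rw [Set.ncard_coe_finset, Finset.card_range] at h4
    exact_mod_cast h4
  show c₀ q / 2 * N ≤ _
  linarith

end Pool.Agent.H480R2.PW
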