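import Mathlib

/-! From a set which has positive proportion in every interval `[Y, 4Y)` to the values of powers. -/

set_option autoImplicit false

namespace Pool.Agent.H480R2.PW

open MeasureTheory Filter Topology Set

theorem four_pow_le (e : ℝ) (he : 1 ≤ e) : (4 : ℝ) ^ (1 / e) ≤ 1 + 3 / e := by
  have h := rpow_one_add_le_one_add_mul_self (s := 3) (by norm_num)
    (p := 1 / e) (by positivity) (by rw [div_le_one (by linarith)]; exact he)
  have h4 : (1 : ℝ) + 3 = 4 := by norm_num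
  rw [h4] at h
  refine h.trans (le_of_eq ?_)
  ring

theorem one_lt_four_pow (e : ℝ) (he : 1 ≤ e) : 1 < (4 : ℝ) ^ (1 / e) :=
  Real.one_lt_rpow (by norm_num) (by positivity)

theorem lip (t e a b : ℝ) (ht : 0 ≤ t) (he : 1 ≤ e) (ha : 0 < a) :
    LipschitzOnWith (Real.toNNReal (t * (e * b ^ (e - 1)))) (fun x : ℝ => t * x ^ e) (Ico a b) := by
  apply Convex.lipschitzOnWith_of_nnnorm_deriv_le
  · intro x hx
    have hx0 : 0 < x := ha.trans_le hx.1
    exact (Real.differentiableAt_rpow_const_of_ne e hx0.ne').const_mul t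
  · intro x hx
    have hx0 : 0 < x := ha.trans_le hx.1
    have h1 : deriv (fun x : ℝ => t * x ^ e) x = t * (e * x ^ (e - 1)) :=
      ((Real.hasDerivAt_rpow_const (Or.inl hx0.ne')).const_mul t).deriv
    rw [h1]
    rw [← NNReal.coe_le_coe, coe_nnnorm, Real.norm_eq_abs, abs_of_nonneg (by positivity)]
    refine le_trans ?_ (Real.le_coe_toNNReal _)
    have h2 : x ^ (e - 1) ≤ b ^ (e - 1) :=
      Real.rpow_le_rpow hx0.le hx.2.le (by linarith)
    gcongr
  · exact convex_Ico a b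

theorem vol_image (t e a b : ℝ) (ht : 0 ≤ t) (he : 1 ≤ e) (ha : 0 < a) (S : Set ℝ)
    (hS : S ⊆ Ico a b) :
    volume ((fun x : ℝ => t * x ^ e) '' S) ≤
      ENNReal.ofReal (t * (e * b ^ (e - 1))) * volume S := by
  have h := ((lip t e a b ht he ha).mono hS).hausdorffMeasure_image_le (d := 1) zero_le_one
  rw [hausdorffMeasure_real] at h
  simpa [ENNReal.ofReal] using h

/-- one window -/
theorem one_window (G : Set ℝ) (c₀ Y₀ : ℝ) (hc₀ : 0 < c₀)
    (h : ∀ Y : ℝ, Y₀ ≤ Y → ENNReal.ofReal (c₀ * Y) ≤ volume (Ico Y (4 * Y) ∩ G))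
    (t e a : ℝ) (ht : 1 ≤ t) (he : 1 ≤ e) (ha : 1 ≤ a) (hY : Y₀ ≤ t * a ^ e) :
    ENNReal.ofReal (c₀ / 12 * (a * 4 ^ (1 / e) - a)) ≤
      volume (Ico a (a * 4 ^ (1 / e)) ∩ {x | t * x ^ e ∈ G}) := by
  set r : ℝ := 4 ^ (1 / e) with hr
  have hr1 : 1 < r := one_lt_four_pow e he
  have hr3 : r ≤ 1 + 3 / e := four_pow_le e he
  have he0 : 0 < e := by linarith
  have ha0 : 0 < a := by linarith
  have ht0 : 0 < t := by linarith
  have hre : r ^ e = 4 := by
    rw [hr, ← Real.rpow_mul (by norm_num), one_div, inv_mul_cancel₀ he0.ne', Real.rpow_one]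
  set Y : ℝ := t * a ^ e with hYdef
  have hY0 : 0 < Y := by positivity
  set S : Set ℝ := Ico a (a * r) ∩ {x | t * x ^ e ∈ G} with hS
  have hsub : Ico Y (4 * Y) ∩ G ⊆ (fun x : ℝ => t * x ^ e) '' S := by
    rintro y ⟨⟨hy1, hy2⟩, hyG⟩
    have hy0 : 0 < y := hY0.trans_le hy1
    refine ⟨(y / t) ^ (1 / e), ?_, ?_⟩
    · have hx : ((y / t) ^ (1 / e)) ^ e = y / t := by
        rw [← Real.rpow_mul (by positivity), one_div, inv_mul_cancel₀ he0.ne', Real.rpow_one]
      refine ⟨⟨?_, ?_⟩, ?_⟩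
      · have h1 : a ^ e ≤ y / t := by
          rw [le_div_iff₀ ht0]
          linarith
        have h2 : a = (a ^ e) ^ (1 / e) := by
          rw [← Real.rpow_mul ha0.le, one_div, mul_inv_cancel₀ he0.ne', Real.rpow_one]
        rw [h2]
        exact Real.rpow_le_rpow (by positivity) h1 (by positivity)
      · have h1 : y / t < (a * r) ^ e := by
          rw [Real.mul_rpow ha0.le (by linarith), hre, div_lt_iff₀ ht0]
          linarith
        have h2 : a * r = ((a * r) ^ e) ^ (1 / e) := by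
          rw [← Real.rpow_mul (by positivity), one_div, mul_inv_cancel₀ he0.ne', Real.rpow_one]
        rw [h2]
        exact Real.rpow_lt_rpow (by positivity) h1 (by positivity)
      · show t * ((y / t) ^ (1 / e)) ^ e ∈ G
        rw [hx]
        have : t * (y / t) = y := by field_simp
        rw [this]
        exact hyG
    · show t * ((y / t) ^ (1 / e)) ^ e = y
      rw [← Real.rpow_mul (by positivity), one_div, inv_mul_cancel₀ he0.ne', Real.rpow_one]
      field_simp
  have h1 := (h Y hY).trans ((measure_mono hsub).trans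
    (vol_image t e a (a * r) ht0.le he ha0 S inter_subset_left))
  set L : ℝ := t * (e * (a * r) ^ (e - 1)) with hL
  have hL0 : 0 < L := by positivity
  have hLe : L * (a * r) = 4 * e * Y := by
    have h3 : (a * r) ^ (e - 1) * (a * r) = (a * r) ^ e := by
      rw [Real.rpow_sub_one (by positivity)]
      field_simp
    have h4 : (a * r) ^ e = a ^ e * 4 := by
      rw [Real.mul_rpow ha0.le (by linarith), hre]
    calc L * (a * r) = t * e * ((a * r) ^ (e - 1) * (a * r)) := by rw [hL]; ring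
      _ = t * e * (a ^ e * 4) := by rw [h3, h4]
      _ = 4 * e * Y := by rw [hYdef]; ring
  have h2 : ENNReal.ofReal (c₀ * Y / L) ≤ volume S := by
    rw [ENNReal.ofReal_div_of_pos hL0]
    apply ENNReal.div_le_of_le_mul'
    exact h1
  refine le_trans (ENNReal.ofReal_le_ofReal ?_) h2
  rw [le_div_iff₀ hL0]
  have h5 : a * r - a ≤ 3 * a / e := by
    have : a * r ≤ a * (1 + 3 / e) := mul_le_mul_of_nonneg_left hr3 ha0.le
    have h6 : a * (1 + 3 / e) = a + 3 * a / e := by ring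
    linarith
  have h6 : c₀ / 12 * (a * r - a) * L ≤ c₀ / 12 * (3 * a / e) * L := by
    gcongr
  refine h6.trans ?_
  have h7 : c₀ / 12 * (3 * a / e) * L * r = c₀ * Y := by
    have : c₀ / 12 * (3 * a / e) * L * r = c₀ / (4 * e) * (L * (a * r)) := by ring
    rw [this, hLe]
    field_simp
  have h8 : 0 ≤ c₀ / 12 * (3 * a / e) * L := by positivity
  nlinarith

/-- many windows -/
theorem many_windows (G : Set ℝ) (hG : MeasurableSet G) (c₀ Y₀ : ℝ) (hc₀ : 0 < c₀)
    (h : ∀ Y : ℝ, Y₀ ≤ Y → ENNReal.ofReal (c₀ * Y) ≤ volume (Ico Y (4 * Y) ∩ G))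
    (t e u : ℝ) (ht : 1 ≤ t) (he : 1 ≤ e) (hu : 1 ≤ u) (hY : Y₀ ≤ t * u ^ e) (M : ℕ) :
    ENNReal.ofReal (c₀ / 12 * (u * (4 ^ (1 / e)) ^ M - u)) ≤
      volume (Ico u (u * (4 ^ (1 / e)) ^ M) ∩ {x | t * x ^ e ∈ G}) := by
  have hE : MeasurableSet {x : ℝ | t * x ^ e ∈ G} := by
    have : Measurable fun x : ℝ => t * x ^ e := by fun_prop
    exact this hG
  have hr1 : 1 < (4 : ℝ) ^ (1 / e) := one_lt_four_pow e he
  set r : ℝ := 4 ^ (1 / e) with hr
  induction M with
  | zero => simp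
  | succ M ih =>
    have hrM : 1 ≤ r ^ M := one_le_pow₀ hr1.le
    have hua : u ≤ u * r ^ M := by nlinarith
    set a : ℝ := u * r ^ M with ha
    have hu0 : 0 < u := by linarith
    have ha1 : 1 ≤ a := hu.trans hua
    have h1 := one_window G c₀ Y₀ hc₀ h t e a ht he ha1 (hY.trans (by
      have : u ^ e ≤ a ^ e := Real.rpow_le_rpow hu0.le hua (by linarith)
      gcongr))
    rw [← hr] at h1
    have e1 : u * r ^ (M + 1) = a * r := by rw [ha, pow_succ]; ring
    rw [e1]
    have har : a ≤ a * r := by nlinarith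
    have hun : (Ico u a ∩ {x | t * x ^ e ∈ G}) ∪ (Ico a (a * r) ∩ {x | t * x ^ e ∈ G}) =
        Ico u (a * r) ∩ {x | t * x ^ e ∈ G} := by
      rw [← union_inter_distrib_right, Ico_union_Ico_eq_Ico hua har]
    have hdis : Disjoint (Ico u a ∩ {x | t * x ^ e ∈ G}) (Ico a (a * r) ∩ {x | t * x ^ e ∈ G}) := by
      apply Disjoint.mono inter_subset_left inter_subset_left
      rw [Set.disjoint_left]
      intro x hx hx'
      exact absurd hx.2 (not_lt.2 hx'.1)
    rw [← hun, measure_union hdis (measurableSet_Ico.inter hE)]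
    have e2 : c₀ / 12 * (a * r - u) = c₀ / 12 * (a - u) + c₀ / 12 * (a * r - a) := by ring
    rw [e2, ENNReal.ofReal_add (by
      apply mul_nonneg (by positivity); linarith) (by
      apply mul_nonneg (by positivity); linarith)]
    exact add_le_add ih h1

/-- an interval -/
theorem interval (G : Set ℝ) (hG : MeasurableSet G) (c₀ Y₀ : ℝ) (hc₀ : 0 < c₀)
    (h : ∀ Y : ℝ, Y₀ ≤ Y → ENNReal.ofReal (c₀ * Y) ≤ volume (Ico Y (4 * Y) ∩ G))
    (t e : ℕ → ℝ) (ht : ∀ n, 1 ≤ t n) (he : Tendsto e atTop atTop) (u v : ℝ) (hu : 1 < u)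
    (huv : u < v) : ∀ᶠ n in atTop, ENNReal.ofReal (c₀ / 24 * (v - u)) ≤
      volume (Icc u v ∩ {x | t n * x ^ (e n) ∈ G}) := by
  have e1 : ∀ᶠ n in atTop, Y₀ ≤ u ^ (e n) :=
    ((tendsto_rpow_atTop_of_base_gt_one u hu).comp he).eventually_ge_atTop Y₀
  filter_upwards [e1, he.eventually_ge_atTop 1, he.eventually_ge_atTop (6 * v / (v - u))] with
    n h1 h2 h3
  have hu0 : 0 < u := by linarith
  have hv0 : 0 < v := by linarith
  have hr1 : 1 < (4 : ℝ) ^ (1 / e n) := one_lt_four_pow _ h2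
  have hr3 := four_pow_le _ h2
  obtain ⟨M, hM1, hM2⟩ := exists_nat_pow_near (x := v / u) (y := (4 : ℝ) ^ (1 / e n))
    (by rw [le_div_iff₀ hu0]; linarith) hr1
  have hpos : 0 ≤ u ^ (e n) := by positivity
  have h4 := many_windows G hG c₀ Y₀ hc₀ h (t n) (e n) u (ht n) h2 hu.le
    (h1.trans (le_mul_of_one_le_left hpos (ht n))) M
  set r : ℝ := 4 ^ (1 / e n) with hr
  rw [le_div_iff₀ hu0] at hM1
  rw [div_lt_iff₀ hu0, pow_succ] at hM2
  have h5 : (v - u) / 2 ≤ u * r ^ M - u := by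
    have hen : 0 < e n := by linarith
    have h6 : 3 * v / e n ≤ (v - u) / 2 := by
      rw [div_le_iff₀ (by linarith)] at h3
      rw [div_le_iff₀ hen]
      linarith
    have h7 : r ^ M * u ≤ v := hM1
    have h8 : v ≤ (r ^ M * u) * (1 + 3 / e n) := by
      have : (r ^ M * u) * r ≤ (r ^ M * u) * (1 + 3 / e n) :=
        mul_le_mul_of_nonneg_left hr3 (by positivity)
      calc v ≤ r ^ M * r * u := hM2.le
        _ = (r ^ M * u) * r := by ring
        _ ≤ _ := this
    have h9 : (r ^ M * u) * (3 / e n) ≤ v * (3 / e n) :=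
      mul_le_mul_of_nonneg_right h7 (by positivity)
    have h10 : v * (3 / e n) = 3 * v / e n := by ring
    nlinarith
  refine le_trans (ENNReal.ofReal_le_ofReal ?_) (h4.trans (measure_mono ?_))
  · have : c₀ / 12 * ((v - u) / 2) ≤ c₀ / 12 * (u * r ^ M - u) := by gcongr
    linarith
  · apply inter_subset_inter_left
    intro x hx
    refine ⟨hx.1, hx.2.le.trans ?_⟩
    rw [mul_comm]
    exact hM1

end Pool.Agent.H480R2.PW
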